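import Mathlib
import Pool.Agent.P.MP_4f6efa_gt.Main

set_option autoImplicit false

namespace Pool.Agent.Results.MP_4f6efa_gt.NotTExtral

/-- `Cp Z`: the continuous maps `Z → ℝ`, with the subspace topology from the product `Z → ℝ`
(topology of pointwise convergence). -/
abbrev Cp (Z : Type) [TopologicalSpace Z] : Type := {f : Z → ℝ // Continuous f}

/-- The subspace `K` of `Y` is t-embedded: there is a continuous extender `Cp K → Cp Y`. -/
def TEmbedded {Y : Type} [TopologicalSpace Y] (K : Set Y) : Prop :=
  ∃ φ : Cp K → Cp Y, Continuous φ ∧ ∀ (f : Cp K) (x : K), (φ f).1 x = f.1 x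

/-- `X` is t-extral: every closed copy of `X` in a Tychonoff space is t-embedded. -/
def TExtral (X : Type) [TopologicalSpace X] : Prop :=
  ∀ (Y : Type) [TopologicalSpace Y] [T35Space Y] (K : Set Y),
    IsClosed K → Nonempty (K ≃ₜ X) → TEmbedded K

/-- For every uncountable index set `ι`, in particular for `ω₁`, the Cantor cube `D^ι` is not
t-extral. -/
theorem result (ι : Type) [Uncountable ι] : ¬ TExtral (ι → Bool) := by
  intro h
  obtain ⟨K, hK, he, hno⟩ := Pool.Agent.P.MP_4f6efa_gt.no_extender ι
  exact hno (h (ι → unitInterval) K hK he)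

end Pool.Agent.Results.MP_4f6efa_gt.NotTExtral
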